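import Pool.Agent.L7h80.RC.Stm

/-!
# Project RC: TO, the torsion lemma
-/

set_option autoImplicit false

namespace Pool.Agent.L7h24.RC

open MvPowerSeries Pool.Agent.L7h80.RC

/-- the value on the branch as a ring homomorphism -/
noncomputable def br (hBR : S_BR) {n : ℕ} (w : Fin n → ℕ) (hw : ∀ i, 0 < w i) (c : Fin n → ℂ) :
    PS n →+* PowerSeries ℂ where
  toFun := onBranch w c
  map_one' := by
    have h := (hBR n w hw c).2.2.1 1
    simpa using h
  map_mul' := (hBR n w hw c).2.1
  map_zero' := by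
    have h := (hBR n w hw c).2.2.1 0
    simpa using h
  map_add' := (hBR n w hw c).1

theorem s_TO (hBR : S_BR) (hEU : S_EU) : S_TO := by
  classical
  intro n w hw c hc p hp
  obtain ⟨i0, hi0⟩ : ∃ i, c i ≠ 0 := by
    by_contra h
    push Not at h
    exact hc (funext h)
  set Φ := br hBR w hw c with hΦ
  have hmem : ∀ f, f ∈ p ↔ Φ f = 0 := hp
  have hC : ∀ a : ℂ, Φ (C a) = PowerSeries.C a := (hBR n w hw c).2.2.1
  have hX : ∀ i, Φ (X i) = PowerSeries.C (c i) * PowerSeries.X ^ w i := (hBR n w hw c).2.2.2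
  have hCne : ∀ a : ℂ, a ≠ 0 → (PowerSeries.C a : PowerSeries ℂ) ≠ 0 := fun a ha h =>
    ha (by simpa using congrArg (PowerSeries.constantCoeff (R := ℂ)) h)
  have hXne : ∀ i, c i ≠ 0 → Φ (X i) ≠ 0 := by
    intro i hi
    rw [hX]
    exact mul_ne_zero (hCne _ hi) (pow_ne_zero _ PowerSeries.X_ne_zero)
  -- the generators
  set G : Fin n → PS n := fun k => if k = i0 then 0 else if c k = 0 then X k else
    X k ^ (w i0) - C (c k ^ w i0 / c i0 ^ w k) * X i0 ^ (w k) with hG
  set u : Fin n → PS n := fun k => if k = i0 then 1 else if c k = 0 then 1 else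
    C (w i0 : ℂ) * X k ^ (w i0 - 1) with hu
  have hGp : ∀ k, G k ∈ p := by
    intro k
    rw [hmem]
    simp only [hG]
    split_ifs with h1 h2
    · exact map_zero Φ
    · rw [hX, h2, map_zero, zero_mul]
    · rw [map_sub, map_mul, map_pow, map_pow, hC, hX, hX, mul_pow, mul_pow, ← map_pow, ← map_pow,
        ← pow_mul, ← pow_mul, ← mul_assoc, ← map_mul, div_mul_cancel₀ _ (pow_ne_zero _ hi0),
        mul_comm (w k), sub_self]
  have hGi0 : G i0 = 0 := by simp [hG]
  have hd1 : ∀ k, k ≠ i0 → pderiv ℂ k (G k) = u k := by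
    intro k hk
    simp only [hG, hu, if_neg hk]
    split_ifs with h2
    · exact pderiv_X_self
    · rw [map_sub, pderiv_pow, Derivation.leibniz, pderiv_C, pderiv_pow, pderiv_X_self,
        pderiv_X_of_ne (Ne.symm hk)]
      simp [mul_comm]
  have hd2 : ∀ k i, i ≠ k → i ≠ i0 → pderiv ℂ i (G k) = 0 := by
    intro k i hik hi
    simp only [hG]
    split_ifs with h1 h2
    · exact map_zero _
    · exact pderiv_X_of_ne (Ne.symm hik)
    · rw [map_sub, pderiv_pow, Derivation.leibniz, pderiv_C, pderiv_pow,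
        pderiv_X_of_ne (Ne.symm hi), pderiv_X_of_ne (Ne.symm hik)]
      simp
  have hun : ∀ k, Φ (u k) ≠ 0 := by
    intro k
    simp only [hu]
    split_ifs with h1 h2
    · rw [map_one]; exact one_ne_zero
    · rw [map_one]; exact one_ne_zero
    · rw [map_mul, map_pow, hC]
      exact mul_ne_zero (hCne _ (by exact_mod_cast (hw i0).ne')) (pow_ne_zero _ (hXne k h2))
  set a : PS n := X i0 * ∏ k, u k with ha
  have hap : a ∉ p := by
    rw [hmem, ha, map_mul, map_prod]
    exact mul_ne_zero (hXne i0 hi0) (Finset.prod_ne_zero_iff.2 fun k _ => hun k)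
  refine ⟨a, hap, fun z hz => ?_⟩
  set b : Fin n → PS n := fun k => z k * X i0 * ∏ j ∈ Finset.univ.erase k, u j with hb
  have hbu : ∀ k, b k * u k = a * z k := by
    intro k
    have h1 := Finset.mul_prod_erase Finset.univ u (Finset.mem_univ k)
    simp only [hb]
    rw [ha, ← h1]
    ring
  refine ⟨b, G, hGp, fun i => ?_⟩
  by_cases hi : i = i0
  · subst hi
    -- Euler
    set E : Fin n → PS n := fun k => ∑ j, (C (w j : ℂ) * X j) * pderiv ℂ j (G k) with hE
    have hEp : ∀ k, E k ∈ p := fun k => (hmem _).2 (hEU n w hw c (G k) ((hmem _).1 (hGp k)))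
    have hEi : E i = 0 := by
      simp only [hE, hGi0, map_zero, mul_zero, Finset.sum_const_zero]
    have hEk : ∀ k, k ≠ i → E k = C (w k : ℂ) * X k * u k +
        C (w i : ℂ) * X i * pderiv ℂ i (G k) := by
      intro k hk
      simp only [hE]
      rw [Finset.sum_eq_add k i hk (fun j _ hj => by rw [hd2 k j hj.1 hj.2, mul_zero])
        (fun h => absurd (Finset.mem_univ _) h) (fun h => absurd (Finset.mem_univ _) h), hd1 k hk]
    have hterm : ∀ k, b k * (C (w i : ℂ) * X i * pderiv ℂ i (G k)) =
        b k * E k - (if k = i then 0 else a * (C (w k : ℂ) * X k * z k)) := by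
      intro k
      by_cases hk : k = i
      · rw [if_pos hk, hk, hEi, hGi0, map_zero]
        ring
      · rw [if_neg hk, hEk k hk]
        linear_combination (-(C (w k : ℂ) * X k)) * hbu k
    have hsum : ∑ k, (if k = i then 0 else a * (C (w k : ℂ) * X k * z k)) =
        a * (∑ k, C (w k : ℂ) * X k * z k) - a * (C (w i : ℂ) * X i * z i) := by
      rw [← Finset.add_sum_erase Finset.univ (fun k => C (w k : ℂ) * X k * z k)
        (Finset.mem_univ i), ← Finset.add_sum_erase Finset.univ
        (fun k => if k = i then 0 else a * (C (w k : ℂ) * X k * z k)) (Finset.mem_univ i),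
        if_pos rfl, zero_add, mul_add, add_sub_cancel_left, Finset.mul_sum]
      exact Finset.sum_congr rfl fun k hk => if_neg (Finset.ne_of_mem_erase hk)
    have key : C (w i : ℂ) * X i * (a * z i - ∑ k, b k * pderiv ℂ i (G k)) =
        a * (∑ k, C (w k : ℂ) * X k * z k) - ∑ k, b k * E k := by
      have h1 : C (w i : ℂ) * X i * (∑ k, b k * pderiv ℂ i (G k)) =
          ∑ k, b k * (C (w i : ℂ) * X i * pderiv ℂ i (G k)) := by
        rw [Finset.mul_sum]
        exact Finset.sum_congr rfl fun k _ => by ring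
      rw [mul_sub, h1, Finset.sum_congr rfl fun k _ => hterm k, Finset.sum_sub_distrib, hsum]
      ring
    have hpm : C (w i : ℂ) * X i * (a * z i - ∑ k, b k * pderiv ℂ i (G k)) ∈ p := by
      rw [key]
      exact p.sub_mem (p.mul_mem_left _ hz) (p.sum_mem fun k _ => p.mul_mem_left _ (hEp k))
    rw [hmem, map_mul, map_mul, hC] at hpm
    rcases mul_eq_zero.1 hpm with h | h
    · rcases mul_eq_zero.1 h with h | h
      · exact absurd h (hCne _ (by exact_mod_cast (hw i).ne'))
      · exact absurd h (hXne i hi0)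
    · exact (hmem _).2 h
  · have h1 : ∑ k, b k * pderiv ℂ i (G k) = b i * pderiv ℂ i (G i) := by
      refine Finset.sum_eq_single i (fun k _ hk => ?_) (fun h => absurd (Finset.mem_univ _) h)
      rw [hd2 k i (Ne.symm hk) hi, mul_zero]
    rw [h1, hd1 i hi, hbu i, sub_self]
    exact p.zero_mem

end Pool.Agent.L7h24.RC
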